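import Pool.Agent.H95.GY.Nec

/-!
# The necessary conditions above the threshold
-/

namespace Pool.Agent.H95.GY

open Pool.Agent.H95.GN (thr G IsCurve IsSurface S)

/-- the numerical statement on irrational scrolls -/
def ScrollNec (T : Surfaces) : Prop :=
  ∀ (x : T.X) (H C F' σ : T.Pic x) (n s d g p A B : ℕ), 3 ≤ n → H ∈ T.Nef x →
    T.dot x H H = s → 0 < s → s ≤ thr n → n + 1 ≤ T.h0 x H → C ∈ T.Cur x →
    T.dot x H C = d → T.dot x C C + T.dot x (T.K x) C = 2 * (g : ℤ) - 2 →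
    (∀ D ∈ T.Cur x, T.dot x H D = 0 → T.dot x C D ≤ 1) → s ^ 2 < d → 1 ≤ p →
    (p : ℤ) ≤ s + 1 - n → F' ∈ T.Nef x → σ ∈ T.Cur x →
    ScrollData T x H F' σ p A B → Irrational n d g

/-- Above the threshold every curve is of one of the explicit types. -/
theorem above_nec (F : Facts) (sn : ScrollNec F.toSurfaces) (n : ℕ) (hn : 3 ≤ n) :
    ∃ C : ℕ, ∀ d ≥ C, ∀ g, G n d g → d ^ 2 + C * d < 2 * (thr n + 1) * g → Types n d g := by
  obtain ⟨c, hc⟩ := F.castelnuovo n (thr n + 1) hn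
  refine ⟨c + 4 * (thr n + 1) ^ 2 + 1, fun d hd g hG hgt => ?_⟩
  obtain ⟨I, hI⟩ := hG
  have hdc : c ≤ d := by omega
  have hthr : thr n = n + n / 3 - 1 := rfl
  have hthr1 : 1 ≤ thr n := by omega
  have hsq' : (thr n + 1) ^ 2 = thr n ^ 2 + 2 * thr n + 1 := by ring
  have hg2 : 2 ≤ g := by
    by_contra hcon
    have h1 : g ≤ 1 := by omega
    have h2 : 2 * (thr n + 1) * g ≤ 2 * (thr n + 1) := by nlinarith
    have h3 : 4 * (thr n + 1) ^ 2 ≤ d := by omega
    have h4 : d ≤ (c + 4 * (thr n + 1) ^ 2 + 1) * d := Nat.le_mul_of_pos_left _ (by omega)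
    have h5 : 2 * (thr n + 1) ≤ 4 * (thr n + 1) ^ 2 := by nlinarith
    omega
  rcases hc d hdc g I hI with ⟨s, J, hs', hJI, hJ⟩ | hle
  swap
  · exfalso
    have : (c + 4 * (thr n + 1) ^ 2 + 1) * d = c * d + (4 * (thr n + 1) ^ 2 + 1) * d := by ring
    rw [this] at hgt
    omega
  have hst : s ≤ thr n := by omega
  have hsd : s ^ 2 < d := by
    have : s ^ 2 ≤ (thr n) ^ 2 := Nat.pow_le_pow_left hst 2
    omega
  obtain ⟨x, H, hfree, hHH, hE, hh0, hcur⟩ := F.resolution n s J hJ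
    (fun f hf h1 => hI.nondeg f (hJI hf) h1)
  obtain ⟨C, hC, hHC, hadj, hcon⟩ := hcur d g I hI hJI hsd
  have hs0 : 0 < s := hJ.pos
  have hs0' : (0 : ℤ) < s := by exact_mod_cast hs0
  have hpos : 0 < F.dot x H H := by rw [hHH]; exact hs0'
  have hnef := F.free_nef x H hfree
  obtain ⟨p, hp, hcl⟩ := F.clifford x H hfree hpos
  have hh0' : (n : ℤ) + 1 ≤ F.h0 x H := by exact_mod_cast hh0
  have hsn : (s : ℤ) ≤ n + n / 3 - 1 := by omega
  have hp1 : (p : ℤ) ≤ s + 1 - n := by
    rcases hcl with h | h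
    · exfalso; rw [hHH] at h; omega
    · rw [hHH] at h; linarith
  have hKH : F.dot x (F.K x) H = 2 * p - 2 - s := by rw [hHH] at hp; linarith
  have hKHneg : F.dot x (F.K x) H < 0 := by rw [hKH]; omega
  have hchi : 2 * (n : ℤ) ≤ F.dot x H H - F.dot x (F.K x) H := by
    rcases hcl with h | h
    · exfalso; rw [hHH] at h; omega
    · rw [hHH, hKH]; rw [hHH] at h; linarith
  have hdK : -F.dot x (F.K x) H < d := by
    rw [hKH]
    have h1 : s + 2 < d := by omega
    have h2 : (s : ℤ) + 2 < d := by exact_mod_cast h1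
    have h3 : (0 : ℤ) ≤ p := by positivity
    linarith
  have hrat : 3 ≤ F.dot x (F.K x) (F.K x) → Types n d g := by
    intro h3
    rcases rational_nec F.toSurfaces x H C n s d g hnef hHH hs0 hst hE hchi hC hHC hadj hsd hdK
      hg2 hKHneg h3 with h | h
    · exact Or.inl h
    · exact Or.inr (Or.inl h)
  rcases F.adjunction x H hnef hpos hE with hK | ⟨L, hL, hK, -⟩ |
    ⟨F', hF', σ, hσ, p', A, B, hdata⟩
  · -- `K + H` nef
    have hsq := F.nef_mul x _ hK _ hK
    rw [F.dot_add, dot_add_right, dot_add_right, F.dot_comm x H (F.K x), hKH, hHH] at hsq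
    exact hrat (by omega)
  · -- the plane
    refine hrat ?_
    rw [hK, dot_smul, dot_smul_right, hL]; norm_num
  · -- scrolls
    have hpp : (p' : ℤ) = p := by
      have := hdata.2.2.2.2.1
      linarith
    rcases Nat.eq_zero_or_pos p' with h0 | h0
    · have hp0 : (p : ℤ) = 0 := by rw [← hpp, h0]; norm_num
      obtain ⟨d1, d2, d3, d4, -⟩ := hdata
      obtain ⟨a', b', hKab⟩ := d4 (F.K x)
      have hFH : F.dot x F' H = 1 := by rw [F.dot_comm]; exact d1
      have ha' : a' = -2 := by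
        have := hKab F'
        rw [d3, d1, d2] at this
        linarith
      have hb' : b' = s - 2 := by
        have := hKab H
        rw [hKH, hHH, hFH, ha', hp0] at this
        linarith
      have hK8 : F.dot x (F.K x) (F.K x) = 8 := by
        rw [hKab (F.K x), ha', hb', F.dot_comm x H, hKH, hp0, F.dot_comm x F', d3]; ring
      exact hrat (by rw [hK8]; norm_num)
    · refine Or.inr (Or.inr ?_)
      exact sn x H C F' σ n s d g p' A B hn hnef hHH hs0 hst hh0 hC hHC hadj hcon hsd h0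
        (by rw [hpp]; exact hp1) hF' hσ hdata

end Pool.Agent.H95.GY
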