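import Pool.Agent.H95.GY.Facts

/-!
# Bilinearity, and the third alternative of the adjunction theorem
-/

namespace Pool.Agent.H95.GY

section basics

variable {T : Surfaces} {x : T.X}

lemma dot_zero_left (a : T.Pic x) : T.dot x 0 a = 0 := by
  have := T.dot_add x 0 0 a
  rw [add_zero] at this
  linarith

lemma dot_neg (a b : T.Pic x) : T.dot x (-a) b = -T.dot x a b := by
  have := T.dot_add x (-a) a b
  rw [neg_add_cancel, dot_zero_left] at this
  linarith

lemma dot_nsmul (k : ℕ) (a b : T.Pic x) : T.dot x (k • a) b = k * T.dot x a b := by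
  induction k with
  | zero => simp [dot_zero_left]
  | succ k ih => rw [succ_nsmul, T.dot_add, ih]; push_cast; ring

lemma dot_smul (k : ℤ) (a b : T.Pic x) : T.dot x (k • a) b = k * T.dot x a b := by
  obtain ⟨m, rfl | rfl⟩ := Int.eq_nat_or_neg k
  · rw [natCast_zsmul, dot_nsmul]
  · rw [neg_smul, dot_neg, natCast_zsmul, dot_nsmul]; ring

lemma dot_smul_right (k : ℤ) (a b : T.Pic x) : T.dot x a (k • b) = k * T.dot x a b := by
  rw [T.dot_comm, dot_smul, T.dot_comm x b a]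

lemma dot_add_right (a b c : T.Pic x) : T.dot x a (b + c) = T.dot x a b + T.dot x a c := by
  rw [T.dot_comm, T.dot_add, T.dot_comm x b a, T.dot_comm x c a]

lemma dot_sub_right (a b c : T.Pic x) : T.dot x a (b - c) = T.dot x a b - T.dot x a c := by
  rw [sub_eq_add_neg, dot_add_right, T.dot_comm x a (-c), dot_neg, T.dot_comm x c a]; ring

lemma dot_neg_right (a b : T.Pic x) : T.dot x a (-b) = -T.dot x a b := by
  rw [T.dot_comm, dot_neg, T.dot_comm x b a]

lemma dot_zero_right (a : T.Pic x) : T.dot x a 0 = 0 := by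
  rw [T.dot_comm, dot_zero_left]

end basics

/-- the third alternative of the adjunction theorem -/
def ScrollData (T : Surfaces) (x : T.X) (H F σ : T.Pic x) (p A B : ℕ) : Prop :=
  T.dot x H F = 1 ∧ T.dot x F F = 0 ∧
    T.dot x (T.K x) F = -2 ∧
    (∀ C, ∃ a b : ℤ, ∀ D, T.dot x C D = a * T.dot x H D + b * T.dot x F D) ∧
    2 * (p : ℤ) - 2 = T.dot x H H + T.dot x (T.K x) H ∧ T.dot x σ F = 1 ∧
    2 * T.dot x H σ ≤ T.dot x H H + p ∧ T.h0 x H ≤ A + B ∧
    (A = 0 ∨ 2 * ((A : ℤ) - 1) ≤ T.dot x H σ ∨ (A : ℤ) ≤ T.dot x H σ + 1 - p) ∧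
    (B = 0 ∨ 2 * ((B : ℤ) - 1) ≤ T.dot x H H - T.dot x H σ ∨
      (B : ℤ) ≤ T.dot x H H - T.dot x H σ + 1 - p)

end Pool.Agent.H95.GY
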