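import Pool.Agent.H95.GN.Facts

/-!
# The explicit numerical criterion

For `n` fixed and `d` large, a smooth nondegenerate curve of degree `d` in `P^n` either has
genus at most `d ^ 2 / (2 thr n) - O(d)`, and all these genera occur, or it lies on a rational or
ruled surface of degree at most `thr n`; the following are the resulting pairs `(d, g)`.
-/

namespace Pool.Agent.H95.GY

open Pool.Agent.H95.GN

/-- the classes on the blow up of the plane in `r ≤ 6` general points which are positive on the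
`(-1)`-curves, the lines and the lines through one of the points: the ample classes -/
def Ample {r : ℕ} (h : Cls r) : Prop :=
  0 < h.1 ∧ (∀ i, h.2 i < h.1) ∧ ∀ e, IsExc e → 0 < ip h e

/-- the nef classes on the blow up of the plane in `r ≤ 6` general points -/
def NefCls {r : ℕ} (c : Cls r) : Prop :=
  0 ≤ c.1 ∧ (∀ i, c.2 i ≤ c.1) ∧ ∀ e, IsExc e → 0 ≤ ip c e

/-- curves of type `(a', b')` on the quadric `P¹ × P¹` embedded by `O(a, b)` with degree
`2 a b ≤ thr n` in a space of dimension `(a + 1) (b + 1) - 1 ≥ n` -/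
def Quadric (n d g : ℕ) : Prop :=
  ∃ a b a' b' : ℕ, 0 < a ∧ 0 < b ∧ 0 < a' ∧ 0 < b' ∧ 2 * a * b ≤ thr n ∧
    n + 1 ≤ (a + 1) * (b + 1) ∧ d = a * b' + a' * b ∧ g = (a' - 1) * (b' - 1)

/-- curves of class `c` on the plane blown up in `r ≤ 6` general points, embedded by the class
`h` with degree `h ^ 2 ≤ thr n` in a space of dimension `(h ^ 2 - K h) / 2 ≥ n` -/
def Rational (n d g : ℕ) : Prop :=
  ∃ r : ℕ, r ≤ 6 ∧ ∃ h c : Cls r, Ample h ∧ NefCls c ∧ 0 < ip c c ∧ ip h h ≤ thr n ∧
    2 * (n : ℤ) ≤ ip h h - ip (can r) h ∧ (d : ℤ) = ip h c ∧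
    2 * (g : ℤ) - 2 = ip c c + ip (can r) c

/-- curves meeting the lines of a scroll of degree `s ≤ thr n` over a curve of genus `p ≥ 1` in
`a` points: the scroll comes from a semistable bundle (`n + 2 p ≤ s + 1`), from the sum of a
special and a non-special line bundle, or it is a cone (`s + 1 = n + p`) -/
def Irrational (n d g : ℕ) : Prop :=
  ∃ s p a : ℕ, s ≤ thr n ∧ 1 ≤ p ∧
    2 * (g : ℤ) - 2 = 2 * a * d - a ^ 2 * s - 2 * d + (s + 2 * p - 2) * a ∧
    (n + 2 * p ≤ s + 1 ∨
     (n + p < s + 1 ∧ s + 1 < n + 2 * p ∧ a * (2 * n + 2 * p - 2 - s) ≤ d) ∨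
     (s + 1 = n + p ∧ (d = a * s ∨ d = a * s + 1)))

/-- the numerical criterion -/
def Types (n d g : ℕ) : Prop := Quadric n d g ∨ Rational n d g ∨ Irrational n d g

end Pool.Agent.H95.GY
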