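import Pool.Agent.H95.GY.Defs

/-!
# The published theorems which are used

`Surfaces`: smooth projective complex surfaces with their Picard groups, intersection numbers,
canonical classes, nef classes, integral curves, and the classical theorems about them.
`Facts`: the theorems which link curves and surfaces in `P^n` with them.
-/

namespace Pool.Agent.H95.GY

open Pool.Agent.H95.GN (S G IsCurve IsSurface Cls ip can IsExc)

/-- Smooth projective complex surfaces and the classical theorems of surface theory that are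
used below. -/
structure Surfaces where
  /-- smooth projective complex surfaces (irreducible) -/
  X : Type
  /-- the Picard group -/
  Pic : X → Type
  grp : ∀ x, AddCommGroup (Pic x)
  /-- the intersection number of two line bundles -/
  dot : ∀ x, Pic x → Pic x → ℤ
  dot_comm : ∀ x a b, dot x a b = dot x b a
  dot_add : ∀ x a b c, dot x (a + b) c = dot x a c + dot x b c
  /-- the canonical class -/
  K : ∀ x, Pic x
  /-- dimension of the space of global sections -/
  h0 : ∀ x, Pic x → ℕ
  /-- base point free (globally generated) line bundles -/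
  Free : ∀ x, Set (Pic x)
  /-- nef line bundles -/
  Nef : ∀ x, Set (Pic x)
  /-- classes of `(-1)`-curves -/
  Exc : ∀ x, Set (Pic x)
  /-- classes of integral curves -/
  Cur : ∀ x, Set (Pic x)
  /-- a base point free line bundle is nef -/
  free_nef : ∀ x, ∀ D ∈ Free x, D ∈ Nef x
  /-- a nef line bundle has non-negative degree on every curve (definition) -/
  nef_cur : ∀ x, ∀ D ∈ Nef x, ∀ C ∈ Cur x, 0 ≤ dot x D C
  /-- the intersection number of two nef line bundles is non-negative (Kleiman) -/
  nef_mul : ∀ x, ∀ D ∈ Nef x, ∀ D' ∈ Nef x, 0 ≤ dot x D D'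
  /-- `(-1)`-curves are integral curves -/
  exc_cur : ∀ x, ∀ E ∈ Exc x, E ∈ Cur x
  /-- an integral curve with negative self intersection and `K · D < 0` is a `(-1)`-curve
  (adjunction formula) -/
  neg_cur : ∀ x, ∀ D ∈ Cur x, dot x D D < 0 → dot x (K x) D < 0 → D ∈ Exc x
  /-- two different integral curves have non-negative intersection number -/
  cur_cur : ∀ x, ∀ C ∈ Cur x, ∀ D ∈ Cur x, C ≠ D → 0 ≤ dot x C D
  /-- the Hodge index theorem -/
  hodge : ∀ x H D, 0 < dot x H H → dot x D H = 0 → dot x D D ≤ 0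
  /-- Bertini, adjunction, Riemann-Roch and Clifford: if `H` is base point free with `H ^ 2 > 0`
  then a general member `D` of `|H|` is a smooth connected curve, of genus `p` say,
  `2 p - 2 = H (H + K)`, and `h⁰(H) ≤ 1 + h⁰(D, H|D)`; either `H|D` is special, and
  `2 (h⁰(D, H|D) - 1) ≤ H ^ 2` (Clifford), or `h⁰(D, H|D) = H ^ 2 + 1 - p` (Riemann-Roch). -/
  clifford : ∀ x, ∀ H ∈ Free x, 0 < dot x H H → ∃ p : ℕ,
    2 * (p : ℤ) - 2 = dot x H H + dot x (K x) H ∧
    (2 * ((h0 x H : ℤ) - 2) ≤ dot x H H ∨ (h0 x H : ℤ) - 1 ≤ dot x H H + 1 - p)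
  /-- The adjunction theorem (Mori 1982; Sommese; Van de Ven; Reider): `H` nef and big, with
  `H · E > 0` for all `(-1)`-curves `E`.  Then `K + H` is nef, or the surface is the projective
  plane and `H` is a line or a conic, or it is a `P¹`-bundle over a smooth curve `B` with fibre
  `F` and `H · F = 1`.  In the last case it is `P(V)` with `V` of rank two and degree `H ^ 2` on
  `B`, `O(1) = H`, and every line bundle is numerically `a H + b F`; `B` has the genus `p` given
  by the adjunction formula; let `σ` be a section of least self intersection, corresponding to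
  a quotient line bundle of `V` of degree `H · σ`: then `σ ^ 2 = 2 H · σ - H ^ 2 ≤ p` (Nagata),
  and `h⁰(H)` is at most the sum of the numbers `A`, `B` of sections of the quotient and of the
  kernel, line bundles of degree `H · σ` and `H ^ 2 - H · σ`, to which Clifford's theorem or
  Riemann-Roch apply. -/
  adjunction : ∀ x, ∀ H ∈ Nef x, 0 < dot x H H → (∀ E ∈ Exc x, 0 < dot x H E) →
    K x + H ∈ Nef x ∨
    (∃ L : Pic x, dot x L L = 1 ∧ K x = (-3 : ℤ) • L ∧ (∀ C, ∃ c : ℤ, C = c • L)) ∨
    (∃ F ∈ Nef x, ∃ σ ∈ Cur x, ∃ p A B : ℕ, dot x H F = 1 ∧ dot x F F = 0 ∧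
      dot x (K x) F = -2 ∧ (∀ C, ∃ a b : ℤ, ∀ D, dot x C D = a * dot x H D + b * dot x F D) ∧
      2 * (p : ℤ) - 2 = dot x H H + dot x (K x) H ∧ dot x σ F = 1 ∧
      2 * dot x H σ ≤ dot x H H + p ∧ h0 x H ≤ A + B ∧
      (A = 0 ∨ 2 * ((A : ℤ) - 1) ≤ dot x H σ ∨ (A : ℤ) ≤ dot x H σ + 1 - p) ∧
      (B = 0 ∨ 2 * ((B : ℤ) - 1) ≤ dot x H H - dot x H σ ∨
        (B : ℤ) ≤ dot x H H - dot x H σ + 1 - p))
  /-- Adjunction theory, conic bundles: `H` as in `adjunction` with `K + H` nef and
  `(K + H) ^ 2 = 0` on a surface with `K ^ 2 ≥ 6` (so a rational surface, see `rational`).  Then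
  `K + H` is base point free, and it is trivial or a multiple of the fibre class `F` of a conic
  bundle, `F ^ 2 = 0`, `K · F = -2`. -/
  conic : ∀ x, ∀ H ∈ Nef x, 0 < dot x H H → (∀ E ∈ Exc x, 0 < dot x H E) →
    dot x (K x) H < 0 → 6 ≤ dot x (K x) (K x) → K x + H ∈ Nef x →
    dot x (K x + H) (K x + H) = 0 →
    K x + H = 0 ∨ ∃ (F : Pic x) (m : ℤ), dot x F F = 0 ∧ dot x (K x) F = -2 ∧ K x + H = m • F
  /-- Castelnuovo, Enriques: if `K · H < 0` for a nef `H` then the surface is birationally ruled;
  a surface which is birationally ruled over a curve of genus `q ≥ 1` has `K ^ 2 ≤ 0`, and a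
  rational surface with `K ^ 2 ≥ 3` is the projective plane, a Hirzebruch surface `F_e` (`s` a
  section with `s ^ 2 = -e`, `f` the class of the fibres), or a Hirzebruch surface blown up in
  `r - 1 ≥ 1` points, possibly infinitely near, `r = 9 - K ^ 2 ≤ 6`.  In the last case
  `(Pic, K)` is the lattice `(Cls r, can r)`: with `s' = s + ⌊e/2⌋ f` a basis is `L = s' + f`,
  `E_0 = s'` for odd `e`, `L = s' + f - E_1`, `s' - E_1`, `f - E_1` for even `e`, and the other
  `E_i`.  `-K` is effective by Riemann-Roch (a sum of integral curves), and so is every class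
  `e` with `e ^ 2 = K · e = -1`, because `e · f ≥ 0` (Cauchy-Schwarz in the negative definite
  orthogonal complement of `K`), so `K - e` is negative on the nef class `f`. -/
  rational : ∀ x, ∀ H ∈ Nef x, dot x (K x) H < 0 → 3 ≤ dot x (K x) (K x) →
    (dot x (K x) (K x) = 9 ∧ ∃ L : Pic x, dot x L L = 1 ∧ K x = (-3 : ℤ) • L ∧
      (∀ C, ∃ c : ℤ, C = c • L)) ∨
    (dot x (K x) (K x) = 8 ∧ ∃ (e : ℕ) (s f : Pic x), s ∈ Cur x ∧ f ∈ Nef x ∧
      (e = 1 → s ∈ Exc x) ∧ dot x s s = -e ∧ dot x s f = 1 ∧ dot x f f = 0 ∧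
      K x = (-2 : ℤ) • s + (-((e : ℤ) + 2)) • f ∧ ∀ C, ∃ a b : ℤ, C = a • s + b • f) ∨
    (∃ r : ℕ, 2 ≤ r ∧ r ≤ 6 ∧ ∃ φ : Pic x ≃+ Cls r, (∀ a b, dot x a b = ip (φ a) (φ b)) ∧
      φ (K x) = can r ∧ (∀ e, IsExc (φ e) → e ∈ AddSubmonoid.closure (Cur x)) ∧
      -K x ∈ AddSubmonoid.closure (Cur x))

attribute [instance] Surfaces.grp

/-- The published theorems on curves and surfaces in projective space that are used. -/
structure Facts extends Surfaces where
  /-- Castelnuovo theory (Harris, Eisenbud-Harris; Chiantini-Ciliberto-Di Gennaro, The genus of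
  projective curves, Duke 1993): for given `n ≥ 3` and `s` the curves of large degree `d` in
  `P^n` which lie on no integral surface of degree `< s` have genus at most
  `d ^ 2 / (2 s) + O(d)`. -/
  castelnuovo : ∀ n s : ℕ, 3 ≤ n → ∃ c : ℕ, ∀ d ≥ c, ∀ g I, IsCurve n d g I →
    (∃ (s' : ℕ) (J : Ideal (S n)), s' < s ∧ J ≤ I ∧ IsSurface n s' J) ∨
      2 * s * g ≤ d ^ 2 + c * d
  /-- Let `T` be an integral nondegenerate surface of degree `s` in `P^n`, `x` the minimal
  resolution of its normalisation and `H` the pull back of `O(1)`.  Then `H` is base point free,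
  `H ^ 2 = s`, `H · E > 0` for all `(-1)`-curves `E`, `h⁰(H) ≥ n + 1`.  A smooth curve on `T` of
  degree `d > s ^ 2` is not contained in the singular locus of `T` (whose one-dimensional part
  has degree at most `s (s - 1)`), so it is isomorphic to its strict transform `C`;
  `H · C = d`, and `C ^ 2 + K C = 2 g - 2` by the adjunction formula.  If a curve `D` is mapped
  to a point then `C · D ≤ 1`: take a hyperplane through that point transversal to the curve,
  its pull back contains `D`. -/
  resolution : ∀ (n s : ℕ) (J : Ideal (S n)), IsSurface n s J →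
    (∀ f ∈ J, f.IsHomogeneous 1 → f = 0) →
    ∃ (x : X) (H : Pic x), H ∈ Free x ∧ dot x H H = s ∧ (∀ E ∈ Exc x, 0 < dot x H E) ∧
      n + 1 ≤ h0 x H ∧
      ∀ (d g : ℕ) (I : Ideal (S n)), IsCurve n d g I → J ≤ I → s ^ 2 < d →
        ∃ C ∈ Cur x, dot x H C = d ∧ dot x C C + dot x (K x) C = 2 * (g : ℤ) - 2 ∧
          ∀ D ∈ Cur x, dot x H D = 0 → dot x C D ≤ 1
  /-- Del Pezzo surfaces of degree at least three: the blow up of the plane in `r ≤ 6` general
  points.  An ample class `h` is very ample (Di Rocco 1996) and `h⁰(h) = (h ^ 2 - K h) / 2 + 1`.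
  A nef class `c` with `c ^ 2 > 0` is base point free, hence contains a smooth irreducible curve
  (Demazure, Bertini); in `P^N`, `N = h⁰(h) - 1`, it has degree `h · c`, its genus is given by
  `2 g - 2 = c ^ 2 + K c`, and it is nondegenerate if `h - c` is not effective, for example if
  `h - c` is negative on the nef class `h` or on the nef class `L - E_i`. -/
  delPezzo : ∀ r : ℕ, r ≤ 6 → ∀ h c : Cls r, Ample h → NefCls c → 0 < ip c c →
    (ip h (h - c) < 0 ∨ ∃ i : Fin r, ip (h - c) (1, fun l => if l = i then 1 else 0) < 0) →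
    ∀ N d g : ℕ, 2 * (N : ℤ) = ip h h - ip (can r) h → (d : ℤ) = ip h c →
      2 * (g : ℤ) - 2 = ip c c + ip (can r) c → G N d g
  /-- Curves of type `(a', b')` on `P¹ × P¹`, embedded by `O(a, b)`; nondegenerate if the degree
  is greater than `2 a b`. -/
  quadric : ∀ a b a' b' N : ℕ, 0 < a → 0 < b → 0 < a' → 0 < b' → N + 1 = (a + 1) * (b + 1) →
    2 * a * b < a * b' + a' * b → G N (a * b' + a' * b) ((a' - 1) * (b' - 1))
  /-- Knutsen (Smooth curves on projective K3 surfaces, Math. Scand. 2002): for `N ≥ 3` a smooth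
  curve of degree `d` and genus `g` with `g < d ^ 2 / (4 (N - 1))` lies on a K3 surface of degree
  `2 (N - 1)` in `P^N`, except for `(d, g) = (2 N - 1, N)`; it is nondegenerate if
  `d > 2 (N - 1)`. -/
  knutsen : ∀ N d g : ℕ, 3 ≤ N → 2 * N ≤ d → 4 * (N - 1) * g < d ^ 2 → G N d g
  /-- Scrolls of semistable bundles.  Let `V` be a semistable bundle of rank two and degree
  `s > 4 p` on a smooth curve of genus `p ≥ 1` (they exist for all degrees: Atiyah, Mumford).
  `V` twisted by two points down is non-special, so `O(1) = H` embeds `P(V)` in the space of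
  dimension `s + 1 - 2 p`.  The symmetric powers of `V` are semistable, and a semistable
  bundle of slope greater than `2 p - 1` is globally generated; so for `a ≥ 2` and
  `a s + 2 β > 4 p - 2` the linear system of a class `a H + β F` is base point free, and it
  contains a smooth irreducible curve (Bertini). -/
  semistable : ∀ (s p a N : ℕ) (β : ℤ), 1 ≤ p → 4 * p < s → 2 ≤ a → 4 * (p : ℤ) - 2 < a * s + 2 * β →
    N + 2 * p = s + 1 → ∀ d g : ℕ, (d : ℤ) = a * s + β →
      2 * (g : ℤ) - 2 = 2 * a * d - a ^ 2 * s - 2 * d + (s + 2 * p - 2) * a → G N d g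
  /-- Scrolls `P(A ⊕ M)` over a hyperelliptic (or elliptic, if `k = 0`) curve of genus `p ≥ 1`,
  `A` the multiple `k g¹₂`, `0 ≤ k < p`, with `k + 1` sections, and `M` of degree
  `e ≥ 2 p + 1`, `e > 2 k`, very ample with `e + 1 - p` sections.  `H = O(1)` is base point
  free, it is an embedding outside the section `σ` given by `A`, which is contracted for
  `k = 0` and maps two to one onto its image for `k > 0`.  Let `a ≥ 2 p`, and `D` be `m ≥ 0`
  general points (`m ≤ 1` if `k = 0`); by Bertini the linear system of the class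
  `a H + (m - 2 k a) F` which cuts out `D` on `σ` contains a smooth irreducible curve, which `H`
  embeds in the space of dimension `k + e + 1 - p` with degree `a e + m`. -/
  hyperelliptic : ∀ k p e a m N : ℕ, k < p → 2 * p + 1 ≤ e → 2 * k < e → 2 * p ≤ a →
    (k = 0 → m ≤ 1) → N + p = k + e + 1 → ∀ d g : ℕ, d = a * e + m →
      2 * (g : ℤ) - 2 = 2 * a * d - a ^ 2 * (2 * k + e) - 2 * d + (2 * k + e + 2 * p - 2) * a →
      G N d g
  /-- projection from general points (Hartshorne, Algebraic Geometry, IV.3) -/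
  project : ∀ n N d g : ℕ, 3 ≤ n → n ≤ N → G N d g → G n d g

end Pool.Agent.H95.GY
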