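import Pool.Agent.H95.GY.Basic
import Pool.Agent.H95.GN.Dp

/-!
# The lattice of the blow up of the plane
-/

namespace Pool.Agent.H95.GY

open Finset
open Pool.Agent.H95.GN (Cls ip can IsExc sum_indicator thr G)

lemma ip_point {r : ℕ} (h : Cls r) (i : Fin r) :
    ip h (0, fun l => if l = i then -1 else 0) = h.2 i := by
  unfold ip
  have : ∑ l, h.2 l * (if l = i then (-1 : ℤ) else 0) = -h.2 i := by
    rw [Finset.sum_eq_single i]
    · simp
    · intro b _ hb; simp [hb]
    · intro h; exact absurd (mem_univ i) h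
  simp only [mul_zero]
  rw [this]; ring

lemma ip_line {r : ℕ} (h : Cls r) (i : Fin r) :
    ip h (1, fun l => if l = i then 1 else 0) = h.1 - h.2 i := by
  unfold ip
  have : ∑ l, h.2 l * (if l = i then (1 : ℤ) else 0) = h.2 i := by
    rw [Finset.sum_eq_single i]
    · simp
    · intro b _ hb; simp [hb]
    · intro h; exact absurd (mem_univ i) h
  simp only [mul_one]
  rw [this]

lemma ip_pair {r : ℕ} (h : Cls r) (i j : Fin r) (hij : i ≠ j) :
    ip h (1, fun l => if l = i ∨ l = j then 1 else 0) = h.1 - (h.2 i + h.2 j) := by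
  unfold ip
  have : ∑ l, h.2 l * (if l = i ∨ l = j then (1 : ℤ) else 0) = h.2 i + h.2 j := by
    have h1 := sum_indicator ({i, j} : Finset (Fin r)) h.2
    rw [Finset.sum_pair hij] at h1
    rw [← h1]
    refine sum_congr rfl fun l _ => ?_
    simp
  simp only [mul_one]
  rw [this]

lemma can_exc {r : ℕ} (e : Cls r) (he : IsExc e) : ip (can r) e = -1 := by
  rcases he with ⟨i, rfl⟩ | ⟨i, j, hij, rfl⟩ | ⟨T, hT, rfl⟩
  · rw [ip_point]; rfl
  · rw [ip_pair _ _ _ hij]
    simp [can]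
  · unfold ip
    simp only
    rw [sum_indicator T (can r).2]
    simp [can, hT]

lemma exists_other {r : ℕ} (hr : 2 ≤ r) (i : Fin r) : ∃ j, i ≠ j := by
  by_cases h : (i : ℕ) = 0
  · exact ⟨⟨1, by omega⟩, fun hh => by rw [hh] at h; simp at h⟩
  · exact ⟨⟨0, by omega⟩, fun hh => by rw [hh] at h; simp at h⟩

lemma ample_of_exc {r : ℕ} (hr : 2 ≤ r) (h : Cls r) (he : ∀ e, IsExc e → 0 < ip h e) :
    Ample h := by
  have h0 : ∀ i, 0 < h.2 i := fun i => by
    rw [← ip_point h i]; exact he _ (Or.inl ⟨i, rfl⟩)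
  have h1 : ∀ i j, i ≠ j → 0 < h.1 - (h.2 i + h.2 j) := fun i j hij => by
    rw [← ip_pair h i j hij]; exact he _ (Or.inr (Or.inl ⟨i, j, hij, rfl⟩))
  refine ⟨?_, fun i => ?_, he⟩
  · obtain ⟨j, hj⟩ := exists_other hr ⟨0, by omega⟩
    have a1 := h0 ⟨0, by omega⟩
    have a2 := h0 j
    have a3 := h1 _ j hj
    linarith
  · obtain ⟨j, hj⟩ := exists_other hr i
    have a2 := h0 j
    have a3 := h1 _ j hj
    linarith

lemma nef_of_exc {r : ℕ} (hr : 2 ≤ r) (h : Cls r) (he : ∀ e, IsExc e → 0 ≤ ip h e) :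
    NefCls h := by
  have h0 : ∀ i, 0 ≤ h.2 i := fun i => by
    rw [← ip_point h i]; exact he _ (Or.inl ⟨i, rfl⟩)
  have h1 : ∀ i j, i ≠ j → 0 ≤ h.1 - (h.2 i + h.2 j) := fun i j hij => by
    rw [← ip_pair h i j hij]; exact he _ (Or.inr (Or.inl ⟨i, j, hij, rfl⟩))
  refine ⟨?_, fun i => ?_, he⟩
  · obtain ⟨j, hj⟩ := exists_other hr ⟨0, by omega⟩
    have a1 := h0 ⟨0, by omega⟩
    have a2 := h0 j
    have a3 := h1 _ j hj
    linarith
  · obtain ⟨j, hj⟩ := exists_other hr i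
    have a2 := h0 j
    have a3 := h1 _ j hj
    linarith

/-- the plane -/
lemma rat0 (n d g : ℕ) (x y : ℤ) (hx : 0 < x) (hy : 0 < y) (ht : x ^ 2 ≤ thr n)
    (hn : 2 * (n : ℤ) ≤ x ^ 2 + 3 * x) (hd : (d : ℤ) = x * y)
    (hg : 2 * (g : ℤ) - 2 = y ^ 2 - 3 * y) : Rational n d g := by
  have hexc : ∀ e : Cls 0, ¬ IsExc e := by
    rintro e (⟨i, -⟩ | ⟨i, -⟩ | ⟨T, hT, -⟩)
    · exact i.elim0
    · exact i.elim0
    · have := card_le_univ T
      rw [hT, Fintype.card_fin] at this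
      omega
  refine ⟨0, by norm_num, (x, ![]), (y, ![]), ⟨hx, fun i => i.elim0, fun e he => absurd he
    (hexc e)⟩, ⟨hy.le, fun i => i.elim0, fun e he => absurd he (hexc e)⟩, ?_, ?_, ?_, ?_, ?_⟩
  · simp [ip]; positivity
  · simp only [ip, univ_eq_empty, sum_empty]; linarith
  · simp only [ip, can, univ_eq_empty, sum_empty]; linarith
  · simp only [ip, univ_eq_empty, sum_empty]; linarith
  · simp only [ip, can, univ_eq_empty, sum_empty]; linarith

/-- the plane blown up in a point -/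
lemma rat1 (n d g : ℕ) (x y m c : ℤ) (hm : 0 < m) (hx : m < x) (hc : 0 ≤ c) (hy : c ≤ y)
    (hcc : 0 < y ^ 2 - c ^ 2) (ht : x ^ 2 - m ^ 2 ≤ thr n)
    (hn : 2 * (n : ℤ) ≤ x ^ 2 - m ^ 2 + 3 * x - m) (hd : (d : ℤ) = x * y - m * c)
    (hg : 2 * (g : ℤ) - 2 = y ^ 2 - c ^ 2 - 3 * y + c) : Rational n d g := by
  have hexc : ∀ e : Cls 1, IsExc e → e = (0, fun l => if l = 0 then -1 else 0) := by
    rintro e (⟨i, rfl⟩ | ⟨i, j, hij, -⟩ | ⟨T, hT, -⟩)
    · have : i = 0 := Subsingleton.elim _ _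
      rw [this]
    · exact absurd (Subsingleton.elim i j) hij
    · have := card_le_univ T
      rw [hT, Fintype.card_fin] at this
      omega
  refine ⟨1, by norm_num, (x, ![m]), (y, ![c]), ⟨by simp only; linarith, ?_, ?_⟩,
    ⟨by simp only; linarith, ?_, ?_⟩, ?_, ?_, ?_, ?_, ?_⟩
  · intro i
    have : i = 0 := Subsingleton.elim _ _
    subst this; simpa using hx
  · intro e he
    rw [hexc e he, ip_point]; simpa using hm
  · intro i
    have : i = 0 := Subsingleton.elim _ _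
    subst this; simpa using hy
  · intro e he
    rw [hexc e he, ip_point]; simpa using hc
  · simp only [ip, univ_unique, Fin.default_eq_zero, sum_singleton, Matrix.cons_val_fin_one]
    linarith
  · simp only [ip, univ_unique, Fin.default_eq_zero, sum_singleton, Matrix.cons_val_fin_one]
    linarith
  · simp only [ip, can, univ_unique, Fin.default_eq_zero, sum_singleton,
      Matrix.cons_val_fin_one]
    linarith
  · simp only [ip, univ_unique, Fin.default_eq_zero, sum_singleton, Matrix.cons_val_fin_one]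
    linarith
  · simp only [ip, can, univ_unique, Fin.default_eq_zero, sum_singleton,
      Matrix.cons_val_fin_one]
    linarith

/-- Hirzebruch surfaces: `a = H · f`, `μ = H · s`, `c = C · f`, `ν = C · s` -/
lemma num8 (n d g e : ℕ) (a μ c ν : ℤ) (hg2 : 2 ≤ g) (ha : 0 < a) (hμ : 0 ≤ μ)
    (he1 : e = 1 → 0 < μ) (hc : 0 ≤ c) (hν : 0 ≤ ν) (hpos : 0 < e * a ^ 2 + 2 * a * μ)
    (ht : e * a ^ 2 + 2 * a * μ ≤ thr n)
    (hn : 2 * (n : ℤ) ≤ e * a ^ 2 + 2 * a * μ + ((e : ℤ) + 2) * a + 2 * μ)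
    (hd : (d : ℤ) = e * a * c + a * ν + c * μ)
    (hg : 2 * (g : ℤ) - 2 = e * c ^ 2 + 2 * c * ν - ((e : ℤ) + 2) * c - 2 * ν) :
    Quadric n d g ∨ Rational n d g := by
  have hg2' : (2 : ℤ) ≤ g := by exact_mod_cast hg2
  have hc0 : 0 < c := by
    rcases hc.lt_or_eq with h | h
    · exact h
    · exfalso
      rw [← h] at hg
      nlinarith
  obtain ⟨k, hk | hk⟩ := Nat.even_or_odd' e
  · -- even
    left
    have hke : (e : ℤ) = 2 * k := by rw [hk]; push_cast; ring
    have hk0 : (0 : ℤ) ≤ k := by positivity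
    have hka : 0 ≤ (k : ℤ) * a := mul_nonneg hk0 ha.le
    have hkc : 0 ≤ (k : ℤ) * c := mul_nonneg hk0 hc0.le
    rw [hke] at hpos ht hn hd hg
    set b : ℤ := μ + k * a with hb
    set w : ℤ := ν + k * c with hw
    have hb0 : 0 < b := by
      have h1 : 2 * (k : ℤ) * a ^ 2 + 2 * a * μ = 2 * a * (μ + k * a) := by ring
      rw [h1, ← hb] at hpos
      exact (mul_pos_iff_of_pos_left (by linarith : (0:ℤ) < 2 * a)).mp hpos
    have hg' : (g : ℤ) = (c - 1) * (w - 1) := by
      have : 2 * (g : ℤ) = 2 * ((c - 1) * (w - 1)) := by rw [hw]; linarith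
      linarith
    have hw0 : 0 < w := by
      by_contra hcon
      push Not at hcon
      have h0 : w = 0 := le_antisymm hcon (by linarith)
      rw [h0] at hg'
      linarith
    obtain ⟨a', rfl⟩ : ∃ A : ℕ, a = A := ⟨a.toNat, (Int.toNat_of_nonneg ha.le).symm⟩
    obtain ⟨b', hb'⟩ : ∃ A : ℕ, b = A := ⟨b.toNat, (Int.toNat_of_nonneg hb0.le).symm⟩
    obtain ⟨c', rfl⟩ : ∃ A : ℕ, c = A := ⟨c.toNat, (Int.toNat_of_nonneg hc).symm⟩
    obtain ⟨w', hw'⟩ : ∃ A : ℕ, w = A := ⟨w.toNat, (Int.toNat_of_nonneg hw0.le).symm⟩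
    refine ⟨a', b', c', w', by exact_mod_cast ha, by rw [hb'] at hb0; exact_mod_cast hb0,
      by exact_mod_cast hc0, by rw [hw'] at hw0; exact_mod_cast hw0, ?_, ?_, ?_, ?_⟩
    · have : (2 * a' * b' : ℤ) ≤ thr n := by rw [← hb', hb]; linarith
      exact_mod_cast this
    · have : ((n : ℤ) + 1) ≤ (a' + 1) * (b' + 1) := by rw [← hb', hb]; linarith
      exact_mod_cast this
    · have : (d : ℤ) = a' * w' + c' * b' := by rw [← hb', ← hw', hb, hw]; linarith
      exact_mod_cast this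
    · have h1 : 1 ≤ c' := by exact_mod_cast hc0
      have h2 : 1 ≤ w' := by rw [hw'] at hw0; exact_mod_cast hw0
      zify [h1, h2]
      rw [hg', hw']
  · -- odd
    right
    have hke : (e : ℤ) = 2 * k + 1 := by rw [hk]; push_cast; ring
    have hk0 : (0 : ℤ) ≤ k := by positivity
    have hka : 0 ≤ (k : ℤ) * a := mul_nonneg hk0 ha.le
    have hkc : 0 ≤ (k : ℤ) * c := mul_nonneg hk0 hc0.le
    have hm : 0 < μ + k * a := by
      rcases Nat.eq_zero_or_pos k with h0 | h0
      · have := he1 (by omega)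
        linarith
      · have : (0 : ℤ) < k := by exact_mod_cast h0
        have := mul_pos this ha
        linarith
    rw [hke] at hpos ht hn hd hg
    refine rat1 n d g (μ + k * a + a) (ν + k * c + c) (μ + k * a) (ν + k * c) hm (by linarith)
      (by linarith) (by linarith) ?_ ?_ ?_ ?_ ?_
    · have h1 : (ν + k * c + c) ^ 2 - (ν + k * c) ^ 2 = c * (c + 2 * (ν + k * c)) := by ring
      rw [h1]
      exact mul_pos hc0 (by linarith)
    · linarith
    · linarith
    · linarith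
    · linarith

end Pool.Agent.H95.GY
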