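import Pool.Agent.H95.GY.Lattice

/-!
# The facts used for the counting statements are consequences
-/

namespace Pool.Agent.H95.GY

open Pool.Agent.H95.GN (Cls ip can IsExc)

lemma can_can (r : ℕ) : ip (can r) (can r) = 9 - r := by
  simp [ip, can]

/-- the surfaces -/
def Surfaces.old (T : Surfaces) : GN.Surfaces where
  X := T.X
  Pic := T.Pic
  grp := T.grp
  dot := T.dot
  dot_comm := T.dot_comm
  dot_add := T.dot_add
  K := T.K
  h0 := T.h0
  Free := T.Free
  Nef := T.Nef
  Exc := T.Exc
  Cur := T.Cur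
  free_nef := T.free_nef
  nef_cur := T.nef_cur
  nef_mul := T.nef_mul
  hodge := T.hodge
  clifford := T.clifford
  adjunction := by
    intro x H h1 h2 h3
    rcases T.adjunction x H h1 h2 h3 with h | h | ⟨F, hF, σ, -, p, A, B, a1, a2, a3, a4, -⟩
    · exact Or.inl h
    · exact Or.inr (Or.inl h)
    · exact Or.inr (Or.inr ⟨F, hF, a1, a2, a3, a4⟩)
  conic := T.conic
  rational := by
    intro x H h1 h2 h3
    rcases T.rational x H h1 h2 (by linarith) with h | ⟨h8, e, s, f, -, -, -, a1, a2, a3, -, a4⟩ |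
      ⟨r, hr2, hr6, φ, hφ, hK, -, -⟩
    · exact Or.inl h
    · exact Or.inr (Or.inl ⟨h8, e, s, f, a1, a2, a3, a4⟩)
    · have hKK : T.dot x (T.K x) (T.K x) = 9 - r := by rw [hφ, hK, can_can]
      have hr3 : r ≤ 3 := by
        rw [hKK] at h3
        omega
      have h23 : r = 2 ∨ r = 3 := by omega
      rcases h23 with rfl | rfl
      · refine Or.inr (Or.inr (Or.inl ⟨by rw [hKK]; norm_num, 1, φ.symm (0, ![-1, 0]),
          φ.symm (1, ![1, 0]), φ.symm (0, ![0, -1]), ?_, ?_, ?_, ?_, ?_, ?_, ?_⟩))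
        · rw [hφ]; simp [ip]
        · rw [hφ]; simp [ip]
        · rw [hφ]; simp [ip]
        · rw [hφ]; simp [ip]
        · rw [hφ]; simp [ip]
        · rw [hφ]; simp [ip]
        · intro C
          refine ⟨(φ C).1 - (φ C).2 0, (φ C).1, -(φ C).2 1, φ.injective ?_⟩
          simp only [map_add, map_zsmul, AddEquiv.apply_symm_apply]
          ext i
          · simp
          · fin_cases i <;> simp
      · refine Or.inr (Or.inr (Or.inr ⟨by rw [hKK]; norm_num, φ.symm (1, ![0, 0, 0]),
          φ.symm (0, ![-1, 0, 0]), φ.symm (0, ![0, -1, 0]), φ.symm (0, ![0, 0, -1]), ?_, ?_, ?_,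
          ?_, ?_, ?_, ?_, ?_, ?_, ?_, ?_, ?_⟩))
        · rw [hφ]; simp [ip, Fin.sum_univ_three]
        · rw [hφ]; simp [ip, Fin.sum_univ_three]
        · rw [hφ]; simp [ip, Fin.sum_univ_three]
        · rw [hφ]; simp [ip, Fin.sum_univ_three]
        · rw [hφ]; simp [ip, Fin.sum_univ_three]
        · rw [hφ]; simp [ip, Fin.sum_univ_three]
        · rw [hφ]; simp [ip, Fin.sum_univ_three]
        · rw [hφ]; simp [ip, Fin.sum_univ_three]
        · rw [hφ]; simp [ip, Fin.sum_univ_three]
        · rw [hφ]; simp [ip, Fin.sum_univ_three]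
        · refine φ.injective ?_
          rw [hK]
          simp only [map_add, map_zsmul, AddEquiv.apply_symm_apply]
          ext i
          · simp [can]
          · fin_cases i <;> simp [can]
        · intro C
          refine ⟨(φ C).1, -(φ C).2 0, -(φ C).2 1, -(φ C).2 2, φ.injective ?_⟩
          simp only [map_add, map_zsmul, AddEquiv.apply_symm_apply]
          ext i
          · simp
          · fin_cases i <;> simp

/-- the facts -/
def Facts.old (F : Facts) : GN.Facts where
  toSurfaces := F.toSurfaces.old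
  castelnuovo := F.castelnuovo
  resolution := by
    intro n s J hJ hl
    obtain ⟨x, H, a1, a2, a3, a4, a5⟩ := F.resolution n s J hJ hl
    refine ⟨x, H, a1, a2, a3, a4, fun d g I h1 h2 h3 => ?_⟩
    obtain ⟨C, b1, b2, b3, -⟩ := a5 d g I h1 h2 h3
    exact ⟨C, b1, b2, b3⟩
  delPezzo := by
    intro r hr2 hr6 h c h1 h2 h3 h4 N d g h5 h6 h7
    exact F.delPezzo r hr6 h c (ample_of_exc hr2 h h1) (nef_of_exc hr2 c h2) h3 (Or.inr h4) N d g
      h5 h6 h7
  knutsen := F.knutsen

end Pool.Agent.H95.GY
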