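import Pool.Agent.H95.GY.Above
import Pool.Agent.H95.GY.Old
import Pool.Agent.H95.GN.Final

/-!
# Assembly
-/

namespace Pool.Agent.H95.GY

open Finset
open Pool.Agent.H95.GN (thr Tern G Answer IsCurve IsSurface S ip can Cls)

theorem quadric_exist (F : Facts) (n : ℕ) (hn : 3 ≤ n) (d g : ℕ) (hd : thr n < d)
    (h : Quadric n d g) : G n d g := by
  obtain ⟨a, b, a', b', ha, hb, ha', hb', hab, hN, rfl, rfl⟩ := h
  refine F.project n ((a + 1) * (b + 1) - 1) _ _ hn (by omega) ?_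
  exact F.quadric a b a' b' _ ha hb ha' hb' (by omega) (by omega)

lemma ip_sub {r : ℕ} (a b c : Cls r) : ip a (b - c) = ip a b - ip a c := by
  unfold ip
  have : ∑ i, a.2 i * (b - c).2 i = ∑ i, a.2 i * b.2 i - ∑ i, a.2 i * c.2 i := by
    rw [← sum_sub_distrib]
    refine sum_congr rfl fun i _ => ?_
    simp only [Prod.snd_sub, Pi.sub_apply]; ring
  rw [this]
  simp only [Prod.fst_sub]
  ring

lemma even_chi {r : ℕ} (h : Cls r) : (2 : ℤ) ∣ ip h h - ip (can r) h := by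
  have : ip h h - ip (can r) h = (h.1 * (h.1 + 1) + 2 * h.1) - ∑ i, h.2 i * (h.2 i + 1) := by
    have e : ∑ i, h.2 i * (h.2 i + 1) = ∑ i, h.2 i * h.2 i + ∑ i, h.2 i := by
      rw [← sum_add_distrib]
      refine sum_congr rfl fun i _ => ?_
      ring
    unfold ip can
    rw [e]
    simp only [neg_mul, one_mul, sum_neg_distrib]
    ring
  rw [this]
  apply dvd_sub
  · exact dvd_add (Int.even_mul_succ_self h.1).two_dvd (dvd_mul_right 2 _)
  · exact dvd_sum (fun i _ => (Int.even_mul_succ_self (h.2 i)).two_dvd)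

theorem rational_exist (F : Facts) (n : ℕ) (hn : 3 ≤ n) (d g : ℕ) (hd : thr n < d)
    (h : Rational n d g) : G n d g := by
  obtain ⟨r, hr, h, c, h1, h2, h3, h4, h5, h6, h7⟩ := h
  obtain ⟨N', hN'⟩ := even_chi h
  obtain ⟨N, rfl⟩ : ∃ N : ℕ, N' = N := by
    refine ⟨N'.toNat, (Int.toNat_of_nonneg ?_).symm⟩
    rw [hN'] at h5
    omega
  have hnN : n ≤ N := by
    rw [hN'] at h5
    omega
  refine F.project n N d g hn hnN ?_
  refine F.delPezzo r hr h c h1 h2 h3 (Or.inl ?_) N d g hN'.symm h6 h7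
  rw [ip_sub, ← h6]
  have : (thr n : ℤ) < d := by exact_mod_cast hd
  linarith

/-- below the cut -/
lemma below_cut (m A d g : ℕ) (hd : (2 * m + 1) * A ≤ d) (h : (2 * m + 1) * g ≤ d ^ 2) :
    2 * m * g + A * d ≤ d ^ 2 := by
  have h2 : (2 * m + 1) * A * d ≤ d ^ 2 := by
    rw [sq d]; exact Nat.mul_le_mul_right d hd
  have h4 : (2 * m + 1) * (2 * m * g + A * d) ≤ (2 * m + 1) * d ^ 2 := by
    have e1 : (2 * m + 1) * (2 * m * g + A * d) =
        2 * m * ((2 * m + 1) * g) + (2 * m + 1) * A * d := by ring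
    have e2 : (2 * m + 1) * d ^ 2 = 2 * m * d ^ 2 + d ^ 2 := by ring
    rw [e1, e2]
    exact Nat.add_le_add (Nat.mul_le_mul_left _ h) h2
  exact Nat.le_of_mul_le_mul_left h4 (by omega)

/-- above the cut -/
lemma above_cut (m B d g : ℕ) (hd : (2 * m + 1) * B ≤ d) (h : d ^ 2 < (2 * m + 1) * g) :
    d ^ 2 + B * d ≤ 2 * (m + 1) * g := by
  have h2 : (2 * m + 1) * B * d ≤ d ^ 2 := by
    rw [sq d]; exact Nat.mul_le_mul_right d hd
  have h4 : (2 * m + 1) * (d ^ 2 + B * d) ≤ (2 * m + 1) * (2 * (m + 1) * g) := by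
    have e1 : (2 * m + 1) * (d ^ 2 + B * d) = (2 * m + 1) * d ^ 2 + (2 * m + 1) * B * d := by
      ring
    have e2 : (2 * m + 1) * (2 * (m + 1) * g) = 2 * (m + 1) * ((2 * m + 1) * g) := by ring
    have e3 : 2 * (m + 1) * d ^ 2 = (2 * m + 1) * d ^ 2 + d ^ 2 := by ring
    have h5 : 2 * (m + 1) * d ^ 2 ≤ 2 * (m + 1) * ((2 * m + 1) * g) :=
      Nat.mul_le_mul_left _ h.le
    rw [e1, e2]
    rw [e3] at h5
    omega
  exact Nat.le_of_mul_le_mul_left h4 (by omega)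

/-- **The theorem**, with the sieve lemma, the three squares theorem, the existence result on
the ternary level and the numerical part on irrational scrolls as inputs. -/
theorem main_of (F : Facts) (ts : ∀ m : ℕ, ∃ a b c : ℕ, 8 * m + 3 = a ^ 2 + b ^ 2 + c ^ 2)
    (sv : ∀ (σ : ℕ), 0 < σ → ∀ ε : ℝ, 0 < ε → ∃ D : ℕ, ∀ (A : ℤ) (L : ℕ),
      D ≤ L → ∀ F : Finset ℕ, (∀ g ∈ F, g < L ∧ ∀ q : ℕ, q.Prime →
        ¬ IsSquare (-(σ : ZMod q)) → (q : ℤ) ∣ A - σ * (8 * g - 1) →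
          (q : ℤ) ^ 2 ∣ A - σ * (8 * g - 1)) → (F.card : ℝ) ≤ ε * L)
    (te : ∀ n : ℕ, n % 3 = 0 → 6 ≤ n → ∃ C : ℕ, ∀ d ≥ C, ∀ g,
      d ^ 2 + C * d ≤ 2 * thr n * g → Tern (n / 3 - 1) d g → G n d g)
    (sn : ScrollNec F.toSurfaces)
    (ie : ∀ n : ℕ, 3 ≤ n → ∃ C : ℕ, ∀ d ≥ C, ∀ g,
      d ^ 2 + C * d ≤ 2 * (thr n + 1) * g → Irrational n d g → G n d g)
    (n : ℕ) (hn : 3 ≤ n) :
    (∃ D : ℕ, ∀ d ≥ D, ∀ g, G n d g ↔ (2 * thr n + 1) * g ≤ d ^ 2 ∨ Types n d g) ∧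
    (∃ C : ℕ, ∀ d ≥ C, ∀ g, 2 * thr n * g + C * d ≤ d ^ 2 → G n d g) ∧
    (∀ ε : ℝ, 0 < ε → ∃ D : ℕ, ∀ d ≥ D, ∀ E : Finset ℕ,
      (∀ g ∈ E, ¬ (G n d g ↔ Answer n d g)) → (E.card : ℝ) ≤ ε * d ^ 2) ∧
    (n % 3 = 2 → ∃ C : ℕ, ∀ d ≥ C, ∀ E : Finset ℕ,
      (∀ g ∈ E, ¬ (G n d g ↔ Answer n d g)) → E.card ≤ C * d) := by
  obtain ⟨m1, m2, C₁, hC₁⟩ := GN.main_of F.old ts sv te n hn
  refine ⟨?_, ⟨C₁, hC₁⟩, m1, m2⟩
  obtain ⟨C₂, hC₂⟩ := above_nec F sn n hn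
  obtain ⟨C₃, hC₃⟩ := ie n hn
  set B := C₁ + C₂ + C₃ + thr n + 1 with hB
  have hBD : B ≤ (2 * thr n + 1) * B := Nat.le_mul_of_pos_left _ (by omega)
  have hmul : ∀ a d : ℕ, a ≤ B → (2 * thr n + 1) * B ≤ d → (2 * thr n + 1) * a ≤ d :=
    fun a d h h' => le_trans (Nat.mul_le_mul_left _ h) h'
  refine ⟨(2 * thr n + 1) * B, fun d hd g => ?_⟩
  have low : (2 * thr n + 1) * g ≤ d ^ 2 → G n d g := fun h =>
    hC₁ d (by omega) g (below_cut (thr n) C₁ d g (hmul _ d (by omega) hd) h)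
  by_cases hl : (2 * thr n + 1) * g ≤ d ^ 2
  · exact ⟨fun _ => Or.inl hl, fun _ => low hl⟩
  · push Not at hl
    constructor
    · intro hG
      right
      have ho := above_cut (thr n) (C₂ + 1) d g (hmul _ d (by omega) hd) hl
      have e : (C₂ + 1) * d = C₂ * d + d := by ring
      exact hC₂ d (by omega) g hG (by omega)
    · rintro (h | h | h | h)
      · exact low h
      · exact quadric_exist F n hn d g (by omega) h
      · exact rational_exist F n hn d g (by omega) h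
      · exact hC₃ d (by omega) g
          (above_cut (thr n) C₃ d g (hmul _ d (by omega) hd) hl) h

end Pool.Agent.H95.GY
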