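import Pool.Agent.H95.GY.Lattice

/-!
# Curves on rational surfaces of small degree
-/

namespace Pool.Agent.H95.GY

open Pool.Agent.H95.GN (thr G Cls ip can IsExc)

section effective

variable (T : Surfaces) (x : T.X)

/-- the degree of effective classes -/
lemma eff_nonneg (Z : T.Pic x) (hZ : ∀ D ∈ T.Cur x, 0 ≤ T.dot x Z D) (e : T.Pic x)
    (he : e ∈ AddSubmonoid.closure (T.Cur x)) : 0 ≤ T.dot x Z e := by
  induction he using AddSubmonoid.closure_induction with
  | mem D hD => exact hZ D hD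
  | zero => rw [dot_zero_right]
  | add a b _ _ ha hb => rw [dot_add_right]; linarith

/-- a curve `C` of large degree is not a component of an effective class of small degree -/
lemma eff_cur (H C : T.Pic x) (hH : H ∈ T.Nef x) (hC : C ∈ T.Cur x) (e : T.Pic x)
    (he : e ∈ AddSubmonoid.closure (T.Cur x)) :
    0 ≤ T.dot x H e ∧ (T.dot x H e < T.dot x H C → 0 ≤ T.dot x C e) := by
  induction he using AddSubmonoid.closure_induction with
  | mem D hD =>
    refine ⟨T.nef_cur x H hH D hD, fun h => T.cur_cur x C hC D hD ?_⟩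
    rintro rfl
    exact lt_irrefl _ h
  | zero =>
    rw [dot_zero_right, dot_zero_right]
    exact ⟨le_rfl, fun _ => le_rfl⟩
  | add a b _ _ ha hb =>
    rw [dot_add_right, dot_add_right]
    exact ⟨by linarith [ha.1, hb.1], fun h => by
      have h1 := ha.2 (by linarith [hb.1])
      have h2 := hb.2 (by linarith [ha.1])
      linarith⟩

/-- a class with `H · D = 0` and `D ^ 2 = 0` is numerically trivial -/
lemma num_trivial (H D Z : T.Pic x) (hpos : 0 < T.dot x H H) (hHD : T.dot x D H = 0)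
    (hDD : T.dot x D D = 0) : T.dot x D Z = 0 := by
  set s := T.dot x H H with hs
  have key : ∀ m : ℤ, 2 * m * s * T.dot x D Z +
      (s ^ 2 * T.dot x Z Z - s * T.dot x Z H ^ 2) ≤ 0 := by
    intro m
    set w : T.Pic x := m • D + (s • Z + (-(T.dot x Z H)) • H) with hw
    have hwH : T.dot x w H = 0 := by
      rw [hw]
      simp only [T.dot_add, dot_smul, hHD, ← hs]
      ring
    have hww : T.dot x w w = 2 * m * s * T.dot x D Z +
        (s ^ 2 * T.dot x Z Z - s * T.dot x Z H ^ 2) := by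
      rw [hw]
      simp only [T.dot_add, dot_add_right, dot_smul, dot_smul_right, hHD, hDD, ← hs]
      rw [T.dot_comm x Z D, T.dot_comm x H Z, T.dot_comm x H D, hHD]
      ring
    rw [← hww]
    exact T.hodge x H w hpos hwH
  by_contra hne
  set c := s ^ 2 * T.dot x Z Z - s * T.dot x Z H ^ 2
  have hs0 : s ≠ 0 := by linarith
  have hne2 : s * T.dot x D Z ≠ 0 := mul_ne_zero hs0 hne
  have hsq : 1 ≤ (s * T.dot x D Z) ^ 2 := by
    have : 0 < (s * T.dot x D Z) ^ 2 := by positivity
    linarith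
  have h1 := key ((1 + |c|) * (s * T.dot x D Z))
  have h2 : 2 * ((1 + |c|) * (s * T.dot x D Z)) * s * T.dot x D Z =
      2 * (1 + |c|) * (s * T.dot x D Z) ^ 2 := by ring
  rw [h2] at h1
  have h3 : 2 * (1 + |c|) ≤ 2 * (1 + |c|) * (s * T.dot x D Z) ^ 2 := by
    have : 0 ≤ 2 * (1 + |c|) := by positivity
    nlinarith
  have h4 := neg_abs_le c
  have h5 := abs_nonneg c
  linarith

/-- an effective class of degree zero has `K · e ≥ 0` -/
lemma eff_K (H : T.Pic x) (hH : H ∈ T.Nef x) (hpos : 0 < T.dot x H H)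
    (hE : ∀ E ∈ T.Exc x, 0 < T.dot x H E) (e : T.Pic x)
    (he : e ∈ AddSubmonoid.closure (T.Cur x)) :
    0 ≤ T.dot x H e ∧ (T.dot x H e = 0 → 0 ≤ T.dot x (T.K x) e) := by
  induction he using AddSubmonoid.closure_induction with
  | mem D hD =>
    refine ⟨T.nef_cur x H hH D hD, fun h => ?_⟩
    have hDH : T.dot x D H = 0 := by rw [T.dot_comm]; exact h
    rcases (T.hodge x H D hpos hDH).lt_or_eq with h1 | h1
    · by_contra hcon
      push Not at hcon
      have := hE D (T.neg_cur x D hD h1 hcon)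
      linarith
    · rw [T.dot_comm, num_trivial T x H D _ hpos hDH h1]
  | zero =>
    rw [dot_zero_right, dot_zero_right]
    exact ⟨le_rfl, fun _ => le_rfl⟩
  | add a b _ _ ha hb =>
    rw [dot_add_right, dot_add_right]
    exact ⟨by linarith [ha.1, hb.1], fun h => by
      have h1 := ha.2 (by linarith [ha.1, hb.1])
      have h2 := hb.2 (by linarith [ha.1, hb.1])
      linarith⟩

end effective

/-- Curves on the plane blown up in `r` points, `2 ≤ r ≤ 6`. -/
theorem blowup_nec (T : Surfaces) (x : T.X) (H C : T.Pic x) (n s d g r : ℕ) (hr2 : 2 ≤ r)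
    (hr6 : r ≤ 6) (φ : T.Pic x ≃+ Cls r) (hφ : ∀ a b, T.dot x a b = ip (φ a) (φ b))
    (hφK : φ (T.K x) = can r)
    (hexc : ∀ e, IsExc (φ e) → e ∈ AddSubmonoid.closure (T.Cur x))
    (hanti : -T.K x ∈ AddSubmonoid.closure (T.Cur x))
    (hnef : H ∈ T.Nef x) (hs : T.dot x H H = s) (hs0 : 0 < s) (hst : s ≤ thr n)
    (hE : ∀ E ∈ T.Exc x, 0 < T.dot x H E)
    (hchi : 2 * (n : ℤ) ≤ T.dot x H H - T.dot x (T.K x) H)
    (hC : C ∈ T.Cur x) (hd : T.dot x H C = d)
    (hg : T.dot x C C + T.dot x (T.K x) C = 2 * (g : ℤ) - 2)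
    (hdK : -T.dot x (T.K x) H < d) (hg2 : 2 ≤ g) : Rational n d g := by
  have hpos : 0 < T.dot x H H := by rw [hs]; exact_mod_cast hs0
  have hg2' : (2 : ℤ) ≤ g := by exact_mod_cast hg2
  -- `C` is not a component of `-K`
  have hCK : 0 ≤ T.dot x C (-T.K x) := by
    refine (eff_cur T x H C hnef hC _ hanti).2 ?_
    rw [hd, dot_neg_right, T.dot_comm x H]; exact hdK
  have hKC : T.dot x (T.K x) C ≤ 0 := by
    rw [dot_neg_right, T.dot_comm x C] at hCK; linarith
  have hCC : 0 < T.dot x C C := by linarith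
  have hCnef : ∀ D ∈ T.Cur x, 0 ≤ T.dot x C D := by
    intro D hD
    by_cases h : C = D
    · rw [← h]; exact hCC.le
    · exact T.cur_cur x C hC D hD h
  refine ⟨r, hr6, φ H, φ C, ample_of_exc hr2 _ fun e he => ?_, nef_of_exc hr2 _ fun e he => ?_,
    ?_, ?_, ?_, ?_, ?_⟩
  · obtain ⟨e', rfl⟩ := φ.surjective e
    rw [← hφ]
    have h1 := eff_K T x H hnef hpos hE e' (hexc e' he)
    rcases h1.1.lt_or_eq with h2 | h2
    · exact h2
    · exfalso
      have h3 := h1.2 h2.symm
      rw [hφ, hφK, can_exc _ he] at h3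
      norm_num at h3
  · obtain ⟨e', rfl⟩ := φ.surjective e
    rw [← hφ]
    exact eff_nonneg T x C hCnef e' (hexc e' he)
  · rw [← hφ]; exact hCC
  · rw [← hφ, hs]; exact_mod_cast hst
  · rw [← hφ, ← hφK, ← hφ]; exact hchi
  · rw [← hφ]; exact hd.symm
  · rw [← hφ, ← hφK, ← hφ]; exact hg.symm

/-- Curves on rational surfaces. -/
theorem rational_nec (T : Surfaces) (x : T.X) (H C : T.Pic x) (n s d g : ℕ)
    (hnef : H ∈ T.Nef x) (hs : T.dot x H H = s) (hs0 : 0 < s) (hst : s ≤ thr n)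
    (hE : ∀ E ∈ T.Exc x, 0 < T.dot x H E)
    (hchi : 2 * (n : ℤ) ≤ T.dot x H H - T.dot x (T.K x) H)
    (hC : C ∈ T.Cur x) (hd : T.dot x H C = d)
    (hg : T.dot x C C + T.dot x (T.K x) C = 2 * (g : ℤ) - 2) (hsd : s ^ 2 < d)
    (hdK : -T.dot x (T.K x) H < d) (hg2 : 2 ≤ g)
    (hKH : T.dot x (T.K x) H < 0) (hK3 : 3 ≤ T.dot x (T.K x) (T.K x)) :
    Quadric n d g ∨ Rational n d g := by
  have hd0 : (0 : ℤ) < d := by exact_mod_cast (by omega : 0 < d)
  have hss : s ≤ s ^ 2 := by nlinarith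
  have hsd' : (s : ℤ) < d := by exact_mod_cast (by omega : s < d)
  have hs0' : (0 : ℤ) < s := by exact_mod_cast hs0
  have hst' : (s : ℤ) ≤ thr n := by exact_mod_cast hst
  rcases T.rational x H hnef hKH hK3 with h9 | h8 | ⟨r, hr2, hr6, φ, h1, h2, h3, h4⟩
  · -- the plane
    obtain ⟨-, L, hL, hK, hall⟩ := h9
    obtain ⟨k, hk⟩ := hall H
    obtain ⟨c, hc⟩ := hall C
    have e1 : T.dot x H H = k ^ 2 := by rw [hk, dot_smul, dot_smul_right, hL]; ring
    have e2 : T.dot x (T.K x) H = -3 * k := by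
      rw [hK, hk, dot_smul, dot_smul_right, hL]; ring
    have e3 : T.dot x H C = k * c := by rw [hk, hc, dot_smul, dot_smul_right, hL]; ring
    have hk0 : 0 < k := by rw [e2] at hKH; linarith
    have hc0 : 0 < c := by
      have : 0 < k * c := by rw [← e3, hd]; exact hd0
      exact (mul_pos_iff_of_pos_left hk0).mp this
    refine Or.inr (rat0 n d g k c hk0 hc0 ?_ ?_ ?_ ?_)
    · rw [← e1, hs]; exact hst'
    · rw [e1, e2] at hchi; linarith
    · rw [← hd, e3]
    · rw [← hg, hK, hc]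
      simp only [dot_smul, dot_smul_right, hL]
      ring
  · -- Hirzebruch surfaces
    obtain ⟨-, e, σ, f, hσ, hf, he1, hss', hsf, hff, hK, hall⟩ := h8
    obtain ⟨h1, h2, hH⟩ := hall H
    obtain ⟨c1, c2, hCc⟩ := hall C
    have hfs : T.dot x f σ = 1 := by rw [T.dot_comm]; exact hsf
    have i1 : T.dot x H f = h1 := by
      rw [hH, T.dot_add, dot_smul, dot_smul, hsf, hff]; ring
    have i2 : T.dot x H σ = h2 - e * h1 := by
      rw [hH, T.dot_add, dot_smul, dot_smul, hss', hfs]; ring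
    have i3 : T.dot x C f = c1 := by
      rw [hCc, T.dot_add, dot_smul, dot_smul, hsf, hff]; ring
    have i4 : T.dot x C σ = c2 - e * c1 := by
      rw [hCc, T.dot_add, dot_smul, dot_smul, hss', hfs]; ring
    have a0 : 0 ≤ h1 := by rw [← i1]; exact T.nef_mul x H hnef f hf
    have μ0 : 0 ≤ h2 - e * h1 := by rw [← i2]; exact T.nef_cur x H hnef σ hσ
    have HH : T.dot x H H = e * h1 ^ 2 + 2 * h1 * (h2 - e * h1) := by
      rw [hH]
      simp only [T.dot_add, dot_add_right, dot_smul, dot_smul_right, hss', hsf, hff, hfs]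
      ring
    have ha : 0 < h1 := by
      rcases a0.lt_or_eq with h | h
      · exact h
      · exfalso
        rw [hs, ← h] at HH
        simp at HH
        omega
    have hpos : 0 < e * h1 ^ 2 + 2 * h1 * (h2 - e * h1) := by rw [← HH, hs]; exact hs0'
    have c0 : 0 ≤ c1 := by rw [← i3, T.dot_comm]; exact T.nef_cur x f hf C hC
    have hne : C ≠ σ := by
      intro h
      rw [h, i2] at hd
      have hle : h2 - e * h1 ≤ s := by
        rw [← hs, HH]
        have : 0 ≤ (e : ℤ) * h1 ^ 2 := by positivity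
        nlinarith
      linarith
    have ν0 : 0 ≤ c2 - e * c1 := by rw [← i4]; exact T.cur_cur x C hC σ hσ hne
    have KH : T.dot x (T.K x) H = -(((e : ℤ) + 2) * h1) - 2 * (h2 - e * h1) := by
      rw [hK, hH]
      simp only [T.dot_add, dot_add_right, dot_smul, dot_smul_right, hss', hsf, hff, hfs]
      ring
    refine num8 n d g e h1 (h2 - e * h1) c1 (c2 - e * c1) hg2 ha μ0
      (fun h => by rw [← i2]; exact hE σ (he1 h)) c0 ν0 hpos ?_ ?_ ?_ ?_
    · rw [← HH, hs]; exact hst'
    · rw [HH, KH] at hchi; linarith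
    · rw [← hd, hH, hCc]
      simp only [T.dot_add, dot_add_right, dot_smul, dot_smul_right, hss', hsf, hff, hfs]
      ring
    · rw [← hg, hK, hCc]
      simp only [T.dot_add, dot_add_right, dot_smul, dot_smul_right, hss', hsf, hff, hfs]
      ring
  · exact Or.inr (blowup_nec T x H C n s d g r hr2 hr6 φ h1 h2 h3 h4 hnef hs hs0 hst hE hchi hC
      hd hg hdK hg2)

end Pool.Agent.H95.GY
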